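import Pool.Agent.ATW.Stmts

/-!
# Squad ATW, row P3M: the powers of `3` modulo `2 ^ A`
-/

namespace Pool.Agent.PP.TW.H77

theorem pw (n : ℕ) : ∃ c : ℤ, (3 : ℤ) ^ (2 ^ (n + 1)) = 1 + 2 ^ (n + 3) * (2 * c + 1) := by
  induction n with
  | zero => exact ⟨0, by norm_num⟩
  | succ n ih =>
    obtain ⟨c, hc⟩ := ih
    refine ⟨c + 2 ^ (n + 1) * (2 * c + 1) ^ 2, ?_⟩
    rw [pow_succ 2 (n + 1), pow_mul, hc]
    ring

theorem main (n : ℕ) (j : ℕ) (hj : j ≡ 1 [MOD 8] ∨ j ≡ 3 [MOD 8]) :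
    ∃ (k : ℕ) (t : ℤ), (3 : ℤ) ^ k = j + 2 ^ (n + 3) * t := by
  induction n with
  | zero =>
    rcases hj with h | h
    · obtain ⟨t, ht⟩ := (Nat.modEq_iff_dvd).1 h
      exact ⟨0, t, by push_cast at ht; rw [pow_zero]; norm_num; linarith⟩
    · obtain ⟨t, ht⟩ := (Nat.modEq_iff_dvd).1 h
      exact ⟨1, t, by push_cast at ht; rw [pow_one]; norm_num; linarith⟩
  | succ n ih =>
    obtain ⟨k, t, hk⟩ := ih
    rcases Int.even_or_odd' t with ⟨u, hu | hu⟩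
    · exact ⟨k, u, by rw [hk, hu]; ring⟩
    · obtain ⟨c, hc⟩ := pw n
      obtain ⟨v, hv⟩ : Odd ((3 : ℤ) ^ k) := Odd.pow (by decide)
      refine ⟨k + 2 ^ (n + 1), u + c * (2 * v + 1) + v + 1, ?_⟩
      have h1 : (3 : ℤ) ^ (k + 2 ^ (n + 1)) =
          (3 : ℤ) ^ k + 2 ^ (n + 3) * (2 * c + 1) * (3 : ℤ) ^ k := by
        rw [pow_add, hc]
        ring
      have h2 : (3 : ℤ) ^ k + 2 ^ (n + 3) * (2 * c + 1) * (3 : ℤ) ^ k =
          (j + 2 ^ (n + 3) * (2 * u + 1)) + 2 ^ (n + 3) * (2 * c + 1) * (2 * v + 1) := by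
        rw [← hu, ← hk, ← hv]
      rw [h1, h2]
      ring

theorem p3m : P3mStmt := by
  intro A j hj
  obtain ⟨k, t, hk⟩ := main A j hj
  refine ⟨k, ?_⟩
  have h1 : j ≡ 3 ^ k [MOD 2 ^ A] := by
    rw [Nat.modEq_iff_dvd]
    refine ⟨2 ^ 3 * t, ?_⟩
    push_cast
    rw [hk]
    ring
  exact h1.symm

end Pool.Agent.PP.TW.H77
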